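import Pool.Agent.TH782.VMad.FTwo
import Pool.Agent.TH782.VMad.Block

set_option autoImplicit false

/-!
# Almost disjoint families over the field with two elements that are decided by filter trees

The argument for analytic families (`VMad.FTwo`) needs only that countably many sets of sequences
attached to the family are decided by trees branching along an idempotent filter.
-/

open Filter Pool.Agent.TH782.VMad

namespace Pool.Agent.TH782.FullF2.Abs

variable {F : Type} [Field F]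

/-- An idempotent filter on the space of vectors that lives far out. -/
def IsIdemFilter (𝓕 : Filter (ℕ →₀ F)) : Prop :=
  𝓕.NeBot ∧ (∀ n : ℕ, ∀ᶠ x in 𝓕, x ≠ 0 ∧ ∀ i ∈ x.support, n ≤ i) ∧
    ∀ P : Set (ℕ →₀ F), P ∈ 𝓕 → ∀ᶠ x in 𝓕, ∀ᶠ y in 𝓕, x + y ∈ P

/-- The sequences of vectors all of whose terms lie in one member of `𝒜` that contains `v`. -/
def SS (𝒜 : Set (Submodule F (ℕ →₀ F))) (v : ℕ →₀ F) : Set (ℕ → (ℕ →₀ F)) :=
  {Y | ∃ A ∈ 𝒜, (∀ n, Y n ∈ A) ∧ v ∈ A}

/-- `𝓕` decides `S`: the branches of some tree all of whose nodes have their set of immediate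
successors in `𝓕` are all in `S` or all outside `S`. -/
def Decides (𝓕 : Filter (ℕ →₀ F)) (S : Set (ℕ → (ℕ →₀ F))) : Prop :=
  ∃ σ : List (ℕ →₀ F) → Set (ℕ →₀ F), (∀ t, σ t ∈ 𝓕) ∧
    ((∀ Y : ℕ → (ℕ →₀ F), (∀ n, Y n ∈ σ ((List.range n).map Y)) → Y ∈ S) ∨
      ∀ Y : ℕ → (ℕ →₀ F), (∀ n, Y n ∈ σ ((List.range n).map Y)) → Y ∉ S)

theorem br_iff {σ : List (ℕ →₀ F) → Set (ℕ →₀ F)} {Y : ℕ → (ℕ →₀ F)} :
    Y ∈ Br σ [] ↔ ∀ n, Y n ∈ σ ((List.range n).map Y) :=
  ⟨fun h n => h.2 n (Nat.zero_le _), fun h => ⟨rfl, fun n _ => h n⟩⟩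

/-- The elements of `D` almost all of whose translates stay in `D`. -/
def star (q : Filter (ℕ →₀ F)) (D : Set (ℕ →₀ F)) : Set (ℕ →₀ F) :=
  {x | x ∈ D ∧ ∀ᶠ y in q, x + y ∈ D}

theorem star_mem {q : Filter (ℕ →₀ F)} (hid : ∀ P : Set (ℕ →₀ F), P ∈ q →
    ∀ᶠ x in q, ∀ᶠ y in q, x + y ∈ P) {D : Set (ℕ →₀ F)} (hD : D ∈ q) : star q D ∈ q :=
  Filter.inter_mem hD (hid D hD)

theorem star_add {q : Filter (ℕ →₀ F)} (hid : ∀ P : Set (ℕ →₀ F), P ∈ q →
    ∀ᶠ x in q, ∀ᶠ y in q, x + y ∈ P) {D : Set (ℕ →₀ F)} {x : ℕ →₀ F} (hx : x ∈ star q D) :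
    {y | x + y ∈ star q D} ∈ q := by
  have h1 := hid {y | x + y ∈ D} hx.2
  have h2 : ∀ᶠ y in q, x + y ∈ star q D := by
    filter_upwards [hx.2, h1] with y hy1 hy2
    refine ⟨hy1, ?_⟩
    filter_upwards [hy2] with z hz
    have hz' : x + (y + z) ∈ D := hz
    rwa [add_assoc]
  exact h2

/-- A branch all of whose block subsequences are branches. -/
theorem exists_full {q : Filter (ℕ →₀ F)} [q.NeBot]
    (hfar : ∀ n : ℕ, ∀ᶠ x in q, ∀ i ∈ x.support, n ≤ i)
    (hid : ∀ P : Set (ℕ →₀ F), P ∈ q → ∀ᶠ x in q, ∀ᶠ y in q, x + y ∈ P)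
    (h0 : ∀ᶠ x in q, x ≠ 0)
    {σ : List (ℕ →₀ F) → Set (ℕ →₀ F)} (hσ : ∀ u, σ u ∈ q) :
    ∃ Y : ℕ → (ℕ →₀ F), (∀ n, Y n ≠ 0) ∧ (∀ i j, i < j → Below (Y i) (Y j)) ∧
      ∀ (Is : List (Finset ℕ)) (k : ℕ), Is.length ≤ k → (∀ I ∈ Is, ∀ i ∈ I, i < k) →
        ∀ J : Finset ℕ, J.Nonempty → (∀ j ∈ J, k ≤ j) →
          ∑ j ∈ J, Y j ∈ σ (Is.map fun I => ∑ i ∈ I, Y i) := by
  classical
  let W : List (ℕ →₀ F) → Set (ℕ →₀ F) := fun l => {x | x ≠ 0 ∧ (∀ y ∈ {y | y ∈ l}, Below y x) ∧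
    ∀ Is ∈ {Is : List (Finset ℕ) | Is.length ≤ l.length ∧
      ∀ I ∈ Is, I ∈ {I : Finset ℕ | I ⊆ Finset.range l.length}},
    ∀ J ∈ {I : Finset ℕ | I ⊆ Finset.range l.length},
      (sumI l J = 0 ∨ sumI l J ∈ star q (σ (Is.map (sumI l)))) →
        sumI l J + x ∈ star q (σ (Is.map (sumI l)))}
  have hfinJ : ∀ n : ℕ, {I : Finset ℕ | I ⊆ Finset.range n}.Finite := by
    intro n
    refine (Finset.finite_toSet (Finset.range n).powerset).subset fun I hI => ?_
    exact Finset.mem_coe.2 (Finset.mem_powerset.2 hI)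
  have hW : ∀ l, W l ∈ q := by
    intro l
    have e1 : ∀ᶠ x in q, ∀ y ∈ {y | y ∈ l}, Below y x := by
      rw [Set.Finite.eventually_all (List.finite_toSet l)]
      intro y _
      filter_upwards [hfar (hi y + 1)] with x hx i hi' j hj
      have := le_hi hi'
      have := hx j hj
      omega
    have e2 : ∀ᶠ x in q, ∀ Is ∈ {Is : List (Finset ℕ) |
        Is.length ≤ l.length ∧ ∀ I ∈ Is, I ∈ {I : Finset ℕ | I ⊆ Finset.range l.length}},
        ∀ J ∈ {I : Finset ℕ | I ⊆ Finset.range l.length},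
          (sumI l J = 0 ∨ sumI l J ∈ star q (σ (Is.map (sumI l)))) →
          sumI l J + x ∈ star q (σ (Is.map (sumI l))) := by
      rw [Set.Finite.eventually_all (finite_lists (hfinJ _) _)]
      intro Is _
      rw [Set.Finite.eventually_all (hfinJ _)]
      intro J _
      by_cases hJ : sumI l J = 0 ∨ sumI l J ∈ star q (σ (Is.map (sumI l)))
      · rcases hJ with hJ | hJ
        · have e3 : ∀ᶠ x in q, x ∈ star q (σ (Is.map (sumI l))) :=
            star_mem hid (hσ _)
          filter_upwards [e3] with x hx _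
          rwa [hJ, zero_add]
        · have e3 : ∀ᶠ x in q, sumI l J + x ∈ star q (σ (Is.map (sumI l))) :=
            star_add hid hJ
          filter_upwards [e3] with x hx _
          exact hx
      · exact Eventually.of_forall fun x h => absurd h hJ
    have e3 : ∀ᶠ x in q, x ∈ W l := by
      filter_upwards [h0, e1, e2] with x h1 h2 h3
      exact ⟨h1, h2, h3⟩
    exact e3
  obtain ⟨Y, hY⟩ := exists_build W fun l => Filter.nonempty_of_mem (hW l)
  refine ⟨Y, fun n => (hY n).1, fun i j hij => (hY j).2.1 (Y i) ?_, ?_⟩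
  · show Y i ∈ ini Y j
    unfold ini
    rw [List.mem_map]
    exact ⟨i, List.mem_range.2 hij, rfl⟩
  · intro Is k hk hIs J hJne hJ
    have key : ∀ J : Finset ℕ, J.Nonempty → (∀ j ∈ J, k ≤ j) →
        ∑ j ∈ J, Y j ∈ star q (σ (Is.map fun I => ∑ i ∈ I, Y i)) := by
      intro J
      induction J using Finset.induction_on_max with
      | empty => intro h; exact absurd h Finset.not_nonempty_empty
      | insert a s hlt ih =>
        intro _ hJ
        have ha : a ∉ s := fun h => lt_irrefl _ (hlt a h)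
        have hka : k ≤ a := hJ a (Finset.mem_insert_self a s)
        have h3 := (hY a).2.2 Is ⟨by rw [ini_length]; omega, fun I hI => by
          show I ⊆ Finset.range (ini Y a).length
          intro i hi
          rw [ini_length, Finset.mem_range]
          have := hIs I hI i hi
          omega⟩ s (by
          show s ⊆ Finset.range (ini Y a).length
          intro i hi
          rw [ini_length, Finset.mem_range]
          exact hlt i hi)
        have e1 : Is.map (sumI (ini Y a)) = Is.map fun I => ∑ i ∈ I, Y i :=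
          List.map_congr_left fun I hI => sumI_ini Y fun i hi => by
            have := hIs I hI i hi
            omega
        rw [e1, sumI_ini Y hlt] at h3
        rw [Finset.sum_insert ha, add_comm]
        refine h3 ?_
        rcases s.eq_empty_or_nonempty with rfl | hs
        · left; simp
        · right
          exact ih hs fun j hj => hJ j (Finset.mem_insert_of_mem hj)
    exact (key J hJne hJ).1

/-- **Main theorem.** Over a field with two elements, an almost disjoint family whose sets `SS 𝒜 v`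
are decided by an idempotent filter containing no member of `𝒜` is not maximal: some block subspace
is almost disjoint from all members. -/
theorem main_abs (hF : ∀ α : F, α = 0 ∨ α = 1) {𝒜 : Set (Submodule F (ℕ →₀ F))} (hA : IsAD 𝒜)
    {q : Filter (ℕ →₀ F)} (hq : IsIdemFilter q) (hnot : ∀ A ∈ 𝒜, (A : Set (ℕ →₀ F)) ∉ q)
    (hdec : ∀ v, Decides q (SS 𝒜 v)) :
    ∃ X : Submodule F (ℕ →₀ F), IsBlockSubspace X ∧ ∀ A ∈ 𝒜, AlmostDisjoint X A := by
  classical
  by_contra hcon
  have hmax : ∀ X, IsBlockSubspace X → ∃ A ∈ 𝒜, ¬ FiniteDimensional F ↥(A ⊓ X) := by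
    intro X hX
    by_contra h
    push Not at h
    refine hcon ⟨X, hX, fun A hA' => ?_⟩
    have := h A hA'
    unfold AlmostDisjoint
    rwa [inf_comm]
  clear hcon
  have hcF : Countable F := by
    have : Finite F := Finite.of_surjective (fun b : Bool => if b then (1 : F) else 0) fun α => by
      rcases hF α with h | h
      · exact ⟨false, by simp [h]⟩
      · exact ⟨true, by simp [h]⟩
    infer_instance
  obtain ⟨hNB, hfar', hid⟩ := hq
  have hfar : ∀ n : ℕ, ∀ᶠ x in q, ∀ i ∈ x.support, n ≤ i := fun n =>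
    (hfar' n).mono fun x hx => hx.2
  have hne0 : ∀ᶠ x in q, x ≠ 0 := (hfar' 0).mono fun x hx => hx.1
  obtain ⟨e0, he0⟩ := exists_surjective_nat (ℕ →₀ F)
  let e : ℕ → (ℕ →₀ F) := fun i => e0 i.unpair.1
  have he : ∀ v N, ∃ i, N ≤ i ∧ e i = v := by
    intro v N
    obtain ⟨a, rfl⟩ := he0 v
    refine ⟨Nat.pair a N, Nat.right_le_pair _ _, ?_⟩
    show e0 (Nat.unpair (Nat.pair a N)).1 = e0 a
    rw [Nat.unpair_pair]
  have hdich : ∀ i, ∃ σ : List (ℕ →₀ F) → Set (ℕ →₀ F), (∀ u, σ u ∈ q) ∧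
      ((∀ f ∈ Br σ [], f ∈ SS 𝒜 (e i)) ∨ ∀ f ∈ Br σ [], f ∉ SS 𝒜 (e i)) := by
    intro i
    obtain ⟨σ, h1, h2⟩ := hdec (e i)
    refine ⟨σ, h1, ?_⟩
    rcases h2 with h2 | h2
    · exact Or.inl fun f hf => h2 f (br_iff.1 hf)
    · exact Or.inr fun f hf => h2 f (br_iff.1 hf)
  choose τ hτq hτ using hdich
  let σ : List (ℕ →₀ F) → Set (ℕ →₀ F) := fun u =>
    {x | x ≠ 0} ∩ ({x | ∀ y ∈ {y | y ∈ u}, Below y x} ∩ ⋂ i ∈ Set.Iic u.length, τ i (u.drop i))
  have hσ : ∀ u, σ u ∈ q := by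
    intro u
    refine Filter.inter_mem hne0 (Filter.inter_mem ?_
      ((Filter.biInter_mem (Set.finite_Iic _)).2 fun i _ => hτq _ _))
    have e1 : ∀ᶠ x in q, ∀ y ∈ {y | y ∈ u}, Below y x := by
      rw [Set.Finite.eventually_all (List.finite_toSet u)]
      intro y _
      filter_upwards [hfar (hi y + 1)] with x hx i hi' j hj
      have := le_hi hi'
      have := hx j hj
      omega
    exact e1
  have hbr : ∀ f ∈ Br σ [], (∀ n, f n ≠ 0) ∧ (∀ i j, i < j → Below (f i) (f j)) ∧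
      ∀ i, (fun n => f (i + n)) ∈ Br (τ i) [] := by
    intro f hf
    refine ⟨fun n => (hf.2 n (Nat.zero_le _)).1, fun i j hij => ?_, fun i => ⟨rfl, fun n _ => ?_⟩⟩
    · refine (hf.2 j (Nat.zero_le _)).2.1 (f i) ?_
      show f i ∈ ini f j
      unfold ini
      rw [List.mem_map]
      exact ⟨i, List.mem_range.2 hij, rfl⟩
    · have h1 := (hf.2 (i + n) (Nat.zero_le _)).2.2
      rw [Set.mem_iInter₂] at h1
      have h2 := h1 i (by rw [Set.mem_Iic, ini_length]; omega)
      have h3 : (ini f (i + n)).drop i = ini (fun n => f (i + n)) n := by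
        unfold ini
        rw [← List.map_drop, List.range_add, List.drop_append_of_le_length (by simp)]
        simp [List.drop_eq_nil_of_le]
      rwa [h3] at h2
  have hno : ∀ f ∈ Br σ [], ∀ A ∈ 𝒜, ¬ ∀ n, f n ∈ A := by
    intro f hf A hAm hfA
    obtain ⟨hf0, hfB, hft⟩ := hbr f hf
    obtain ⟨f', hf'⟩ := exists_build (fun u => σ u ∩ {x | x ∉ A}) fun u => by
      by_contra hemp
      rw [Set.not_nonempty_iff_eq_empty] at hemp
      refine hnot A hAm (Filter.mem_of_superset (hσ u) fun x hx => ?_)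
      by_contra hxA
      have : x ∈ σ u ∩ {x | x ∉ A} := ⟨hx, hxA⟩
      rw [hemp] at this
      exact this
    have hf'br : f' ∈ Br σ [] := ⟨rfl, fun n _ => (hf' n).1⟩
    obtain ⟨hf'0, hf'B, hf't⟩ := hbr f' hf'br
    obtain ⟨i0, _, hi0⟩ := he 0 0
    have h1 : ∃ A' ∈ 𝒜, ∀ n, f' (i0 + n) ∈ A' := by
      rcases hτ i0 with h | h
      · obtain ⟨A', hA', h2, _⟩ := h _ (hf't i0)
        exact ⟨A', hA', h2⟩
      · exfalso
        refine h _ (hft i0) ⟨A, hAm, fun n => hfA _, ?_⟩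
        rw [hi0]
        exact Submodule.zero_mem _
    obtain ⟨A', hA', hfA'⟩ := h1
    obtain ⟨i, hi, hei⟩ := he (f' i0) i0
    have h2 : (fun n => f' (i + n)) ∈ SS 𝒜 (e i) := by
      refine ⟨A', hA', fun n => ?_, ?_⟩
      · have := hfA' (i - i0 + n)
        rwa [show i0 + (i - i0 + n) = i + n by omega] at this
      · rw [hei]
        exact hfA' 0
    have h3 : (fun n => f (i + n)) ∈ SS 𝒜 (e i) := by
      rcases hτ i with h | h
      · exact h _ (hft i)
      · exact absurd h2 (h _ (hf't i))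
    obtain ⟨A'', hA'', h4, h5⟩ := h3
    rw [hei] at h5
    have hne : A ≠ A'' := by
      rintro rfl
      exact (hf' i0).2 h5
    refine block_not_finite (X := A ⊓ A'') (N := i) hf0 hfB (fun n hn => ⟨hfA n, ?_⟩)
      (hA.2 A hAm A'' hA'' hne)
    have h6 : f (i + (n - i)) ∈ A'' := h4 (n - i)
    rwa [show i + (n - i) = n by omega] at h6
  obtain ⟨Y, hY0, hYB, hYs⟩ := exists_full hfar hid hne0 hσ
  obtain ⟨A, hAm, hAX⟩ := hmax (spanOf Y) ⟨Y, ⟨hY0, fun n => hYB n (n + 1) (Nat.lt_succ_self n)⟩, rfl⟩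
  obtain ⟨Z, hZ, hZB⟩ := exists_block hAX
  choose I hI using fun n => mem_span_two hF (Y := Y) (hZ n).1.2
  have hIne : ∀ n, (I n).Nonempty := by
    intro n
    rw [Finset.nonempty_iff_ne_empty]
    intro h
    apply (hZ n).2
    rw [hI n, h]
    simp
  have hIlt : ∀ m n, m < n → ∀ i ∈ I m, ∀ j ∈ I n, i < j := by
    intro m n hmn i hi' j hj
    by_contra hle
    rw [not_lt] at hle
    obtain ⟨a, ha⟩ := Finsupp.support_nonempty_iff.2 (hY0 i)
    obtain ⟨b, hb⟩ := Finsupp.support_nonempty_iff.2 (hY0 j)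
    have h1 : a ∈ (Z m).support := by
      rw [hI m]
      exact support_sum_block hYB hi' ha
    have h2 : b ∈ (Z n).support := by
      rw [hI n]
      exact support_sum_block hYB hj hb
    have h3 := hZB m n hmn a h1 b h2
    rcases hle.lt_or_eq with h | rfl
    · have := hYB j i h b hb a ha
      omega
    · have h4 : a ∈ (Z n).support := by
        rw [hI n]
        exact support_sum_block hYB hj ha
      exact lt_irrefl _ (hZB m n hmn a h1 a h4)
  have hIge : ∀ n, ∀ i ∈ I n, n ≤ i := by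
    intro n
    induction n with
    | zero => intro i _; exact Nat.zero_le i
    | succ n ih =>
      intro i hi'
      obtain ⟨j, hj⟩ := hIne n
      have := ih j hj
      have := hIlt n (n + 1) (by omega) j hj i hi'
      omega
  refine hno Z ⟨rfl, fun n _ => ?_⟩ A hAm fun n => (hZ n).1.1
  have h1 := hYs (ini I n) ((I n).min' (hIne n)) (by
    rw [ini_length]
    exact hIge n _ (Finset.min'_mem _ _)) (fun J hJ i hi' => by
    unfold ini at hJ
    rw [List.mem_map] at hJ
    obtain ⟨m, hm, rfl⟩ := hJ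
    exact hIlt m n (List.mem_range.1 hm) i hi' _ (Finset.min'_mem _ _)) (I n) (hIne n)
    fun j hj => Finset.min'_le _ j hj
  have h2 : (ini I n).map (fun I => ∑ i ∈ I, Y i) = ini Z n := by
    unfold ini
    rw [List.map_map]
    exact List.map_congr_left fun i _ => (hI i).symm
  rw [h2, ← hI n] at h1
  exact h1

end Pool.Agent.TH782.FullF2.Abs
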